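import Mathlib

/-!
# The Moebius-Kantor configuration in projective planes over fields
-/

namespace Pool.Agent.Run7.h749.MKC

open Module

/-- Points of the projective plane over `K`: the one-dimensional subspaces of `K^3`. -/
abbrev Pt (K : Type) [CommRing K] : Type :=
  {U : Submodule K (Fin 3 → K) // finrank K U = 1}

/-- Lines of the projective plane over `K`: the two-dimensional subspaces of `K^3`. -/
abbrev Ln (K : Type) [CommRing K] : Type :=
  {W : Submodule K (Fin 3 → K) // finrank K W = 2}

/-- The incidence relation of the Moebius-Kantor configuration `8_3`: the point `a` lies on the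
line `b` if and only if `a` is one of `b`, `b + 1`, `b + 3` modulo 8. -/
def MK (a b : Fin 8) : Prop := a = b ∨ a = b + 1 ∨ a = b + 3

instance : DecidableRel MK := fun a b => by unfold MK; infer_instance

lemma MK_left : ∀ a a' : Fin 8, (∀ b, MK a b ↔ MK a' b) → a = a' := by decide

lemma MK_right : ∀ b b' : Fin 8, (∀ a, MK a b ↔ MK a b') → b = b' := by decide

section Obstruction

variable {K : Type} [Field K]

lemma exists_rep (U : Pt K) : ∃ v : Fin 3 → K, v ≠ 0 ∧ U.1 = Submodule.span K {v} := by
  obtain ⟨U, hU⟩ := U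
  obtain ⟨v, hv0, hv⟩ := finrank_eq_one_iff'.mp hU
  refine ⟨v.1, fun h => hv0 (Subtype.ext h), ?_⟩
  apply le_antisymm
  · intro w hw
    obtain ⟨c, hc⟩ := hv ⟨w, hw⟩
    rw [Submodule.mem_span_singleton]
    exact ⟨c, by simpa using congrArg Subtype.val hc⟩
  · rw [Submodule.span_singleton_le_iff_mem]
    exact v.2

lemma line_eq_span {P Q : Pt K} {u v : Fin 3 → K} (hu : u ≠ 0)
    (hP : P.1 = Submodule.span K {u}) (hQ : Q.1 = Submodule.span K {v}) (hPQ : P ≠ Q)
    {W : Ln K} (h1 : P.1 ≤ W.1) (h2 : Q.1 ≤ W.1) (hv : v ≠ 0) :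
    Submodule.span K {u, v} = W.1 := by
  have hli : LinearIndependent K ![u, v] := by
    rw [LinearIndependent.pair_iff' hu]
    intro a ha
    apply hPQ
    apply Subtype.ext
    rw [hP, hQ, ← ha]
    have ha0 : a ≠ 0 := by
      rintro rfl
      exact hv (by simpa using ha.symm)
    rw [Submodule.span_singleton_smul_eq (IsUnit.mk0 a ha0)]
  have hfr : finrank K (Submodule.span K {u, v}) = 2 := by
    have h := finrank_span_eq_card hli
    have hr : Set.range ![u, v] = {u, v} := by
      simp [Matrix.range_cons, Set.pair_comm]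
    rw [hr] at h
    simpa using h
  apply Submodule.eq_of_le_of_finrank_eq
  · rw [Submodule.span_le]
    intro w hw
    rcases hw with rfl | hw
    · exact h1 (by rw [hP]; exact Submodule.mem_span_singleton_self _)
    · rw [Set.mem_singleton_iff] at hw
      subst hw
      exact h2 (by rw [hQ]; exact Submodule.mem_span_singleton_self _)
  · rw [hfr, W.2]

/-- A realisation of the Moebius-Kantor configuration with distinct points and distinct lines
produces a primitive cube root of unity. -/
theorem exists_root (f : Fin 8 → Pt K) (g : Fin 8 → Ln K) (hf : Function.Injective f)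
    (hg : Function.Injective g) (h : ∀ a b, MK a b → (f a).1 ≤ (g b).1) :
    ∃ y : K, y ^ 2 + y + 1 = 0 := by
  choose v hv0 hv using fun a => exists_rep (f a)
  have key : ∀ (b i j k : Fin 8), MK i b → MK j b → MK k b → i ≠ j →
      ∃ α β : K, v k = α • v i + β • v j := by
    intro b i j k hi hj hk hij
    have hs := line_eq_span (hv0 i) (hv i) (hv j) (fun e => hij (hf e)) (h i b hi) (h j b hj)
      (hv0 j)
    have hm : v k ∈ Submodule.span K {v i, v j} := by
      rw [hs]
      exact h k b hk (by rw [hv k]; exact Submodule.mem_span_singleton_self _)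
    rw [Submodule.mem_span_pair] at hm
    obtain ⟨α, β, hab⟩ := hm
    exact ⟨α, β, hab.symm⟩
  have nz : ∀ (i j : Fin 8) (c : K), i ≠ j → v i ≠ c • v j := by
    intro i j c hij he
    apply hij
    apply hf
    apply Subtype.ext
    have hc : c ≠ 0 := by
      rintro rfl
      exact hv0 i (by simpa using he)
    rw [hv i, hv j, he, Submodule.span_singleton_smul_eq (IsUnit.mk0 c hc)]
  -- independence of the points 0, 1, 2
  have hind : ∀ x y z : K, x • v 0 + y • v 1 + z • v 2 = 0 → x = 0 ∧ y = 0 ∧ z = 0 := by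
    intro x y z hxyz
    have hz : z = 0 := by
      by_contra hz
      have h2 : v 2 ∈ (g 0).1 := by
        have e : v 2 = (-(z⁻¹ * x)) • v 0 + (-(z⁻¹ * y)) • v 1 := by
          have := congrArg (fun w => z⁻¹ • w) hxyz
          simp only [smul_add, smul_smul, smul_zero, inv_mul_cancel₀ hz, one_smul] at this
          rw [neg_smul, neg_smul]
          rw [eq_comm, ← sub_eq_zero]
          rw [← neg_eq_zero, ← this]
          abel
        rw [e]
        have m0 : v 0 ∈ (g 0).1 :=
          h 0 0 (by decide) (by rw [hv 0]; exact Submodule.mem_span_singleton_self _)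
        have m1 : v 1 ∈ (g 0).1 :=
          h 1 0 (by decide) (by rw [hv 1]; exact Submodule.mem_span_singleton_self _)
        exact Submodule.add_mem _ (Submodule.smul_mem _ _ m0) (Submodule.smul_mem _ _ m1)
      have h2' : (f 2).1 ≤ (g 0).1 := by
        rw [hv 2, Submodule.span_singleton_le_iff_mem]
        exact h2
      have s1 := line_eq_span (hv0 1) (hv 1) (hv 2) (fun e => absurd (hf e) (by decide))
        (h 1 0 (by decide)) h2' (hv0 2)
      have s2 := line_eq_span (hv0 1) (hv 1) (hv 2) (fun e => absurd (hf e) (by decide))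
        (h 1 1 (by decide)) (h 2 1 (by decide)) (hv0 2)
      have : g 0 = g 1 := Subtype.ext (s1.symm.trans s2)
      exact absurd (hg this) (by decide)
    subst hz
    rw [zero_smul, add_zero] at hxyz
    have hx : x = 0 := by
      by_contra hx
      apply nz 0 1 (-(x⁻¹ * y)) (by decide)
      have := congrArg (fun w => x⁻¹ • w) hxyz
      simp only [smul_add, smul_smul, smul_zero, inv_mul_cancel₀ hx, one_smul] at this
      rw [neg_smul]
      exact eq_neg_of_add_eq_zero_left this
    subst hx
    rw [zero_smul, zero_add] at hxyz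
    refine ⟨rfl, ?_, rfl⟩
    rcases smul_eq_zero.mp hxyz with h' | h'
    · exact h'
    · exact absurd h' (hv0 1)
  obtain ⟨a0, a1, h3⟩ := key 0 0 1 3 (by decide) (by decide) (by decide) (by decide)
  obtain ⟨b1, b2, h4⟩ := key 1 1 2 4 (by decide) (by decide) (by decide) (by decide)
  obtain ⟨s, t, h5⟩ := key 2 2 3 5 (by decide) (by decide) (by decide) (by decide)
  obtain ⟨a, b, h6⟩ := key 3 3 4 6 (by decide) (by decide) (by decide) (by decide)
  obtain ⟨c, d, h6'⟩ := key 5 5 0 6 (by decide) (by decide) (by decide) (by decide)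
  obtain ⟨m, n, h7⟩ := key 4 4 5 7 (by decide) (by decide) (by decide) (by decide)
  obtain ⟨e, k, h7'⟩ := key 7 0 2 7 (by decide) (by decide) (by decide) (by decide)
  obtain ⟨r, q, h7''⟩ := key 6 6 1 7 (by decide) (by decide) (by decide) (by decide)
  have ha0 : a0 ≠ 0 := by
    rintro rfl
    exact nz 3 1 a1 (by decide) (by simpa using h3)
  have ha1 : a1 ≠ 0 := by
    rintro rfl
    exact nz 3 0 a0 (by decide) (by simpa using h3)
  have hb1 : b1 ≠ 0 := by
    rintro rfl
    exact nz 4 2 b2 (by decide) (by simpa using h4)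
  have hb2 : b2 ≠ 0 := by
    rintro rfl
    exact nz 4 1 b1 (by decide) (by simpa using h4)
  have hs : s ≠ 0 := by
    rintro rfl
    exact nz 5 3 t (by decide) (by simpa using h5)
  have ht : t ≠ 0 := by
    rintro rfl
    exact nz 5 2 s (by decide) (by simpa using h5)
  have hn : n ≠ 0 := by
    rintro rfl
    exact nz 7 4 m (by decide) (by simpa using h7)
  -- coefficients of point 6
  have e6 := hind (a * a0 - (c * t * a0 + d)) (a * a1 + b * b1 - c * t * a1) (b * b2 - c * s) (by
    have := h6.symm.trans h6'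
    rw [h5, h3, h4] at this
    rw [← sub_eq_zero] at this
    rw [← this]
    module)
  have e7 := hind (n * t * a0 - e) (m * b1 + n * t * a1) (m * b2 + n * s - k) (by
    have := h7.symm.trans h7'
    rw [h5, h3, h4] at this
    rw [← sub_eq_zero] at this
    rw [← this]
    module)
  have e7' := hind (r * (a * a0) - e) (r * (a * a1 + b * b1) + q) (r * (b * b2) - k) (by
    have := h7''.symm.trans h7'
    rw [h6, h3, h4] at this
    rw [← sub_eq_zero] at this
    rw [← this]
    module)
  obtain ⟨-, E1, E2⟩ := e6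
  obtain ⟨E3, E4, E5⟩ := e7
  obtain ⟨E6, -, E7⟩ := e7'
  -- elimination
  have F1 : n * t = r * a := by
    apply mul_right_cancel₀ ha0
    linear_combination E3 - E6
  have hp : t ^ 2 * (a1 * b2) ^ 2 - t * (s * b1) * (a1 * b2) + (s * b1) ^ 2 = 0 := by
    have hm : m * b1 = - (n * t * a1) := by linear_combination E4
    have hbb : b * b2 = c * s := by linear_combination E2
    have haa : a * a1 = c * t * a1 - b * b1 := by linear_combination E1
    have hk : m * b2 + n * s = r * (c * s) := by
      rw [← hbb]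
      linear_combination E5 - E7
    -- a * a1 * b2 = c * (t * a1 * b2 - s * b1)
    have G1 : a * a1 * b2 = c * (t * (a1 * b2) - s * b1) := by
      linear_combination b2 * haa - b1 * hbb
    -- n * (s * b1 - t * a1 * b2) = r * c * s * b1
    have G2 : n * (s * b1 - t * (a1 * b2)) = r * c * (s * b1) := by
      linear_combination b1 * hk - b2 * hm
    have G3 : n * (t * (a1 * b2)) = r * c * (t * (a1 * b2) - s * b1) := by
      linear_combination (a1 * b2) * F1 + r * G1
    have G4 : n * (t ^ 2 * (a1 * b2) ^ 2 - t * (s * b1) * (a1 * b2) + (s * b1) ^ 2) = 0 := by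
      linear_combination (s * b1) * G3 - (t * (a1 * b2) - s * b1) * G2
    rcases mul_eq_zero.mp G4 with h' | h'
    · exact absurd h' hn
    · exact h'
  refine ⟨-(t * (a1 * b2)) / (s * b1), ?_⟩
  have hsb : s * b1 ≠ 0 := mul_ne_zero hs hb1
  field_simp
  linear_combination hp

/-- If `K` contains a root `x` of `x^2 - x + 1`, then the Moebius-Kantor configuration can be
realised over `K` with distinct points and distinct lines. -/
theorem exists_realisation (x : K) (hx : x ^ 2 - x + 1 = 0) :
    ∃ (f : Fin 8 → Pt K) (g : Fin 8 → Ln K), Function.Injective f ∧ Function.Injective g ∧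
      ∀ a b, MK a b → (f a).1 ≤ (g b).1 := by
  classical
  have hx0 : x ≠ 0 := by
    rintro rfl
    simp at hx
  have hx1 : 1 - x ≠ 0 := by
    intro h
    have : x * (1 - x) = 1 := by linear_combination -hx
    rw [h, mul_zero] at this
    exact one_ne_zero this.symm
  have hx1' : x - 1 ≠ 0 := by
    intro h
    apply hx1
    linear_combination -h
  let V : Fin 8 → (Fin 3 → K) := ![![1, 0, 0], ![0, 1, 0], ![0, 0, 1], ![1, 1, 0], ![0, 1, 1],
    ![1, 1, x], ![1 - x, 1, x], ![1, 0, x - 1]]
  let L : Fin 8 → (Fin 3 → K) := ![![0, 0, 1], ![1, 0, 0], ![1, -1, 0], ![1, -1, 1],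
    ![1 - x, -1, 1], ![0, x, -1], ![1 - x, 0, 1], ![0, 1, 0]]
  have hVL : ∀ a b, (L b 0 * V a 0 + L b 1 * V a 1 + L b 2 * V a 2 = 0) ↔ MK a b := by
    have hxx : (1 - x) * (1 - x) + x = 0 := by linear_combination hx
    have hxy : (1 - x) * (1 - x) + -1 + x = -1 := by linear_combination hx
    have hxz : 1 - x + (x - 1) = 0 := by ring
    have hxw : x + -x = 0 := by ring
    have hA : 1 - x + -1 = -x := by ring
    have hB : x + -1 ≠ 0 := by
      intro h
      apply hx1
      linear_combination -h
    intro a b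
    fin_cases a <;> fin_cases b <;>
      simp [V, L, MK, hx0, hx1, hx1', hxx, hxy, hxz, hxw, hA, hB]
  have hV0 : ∀ a, V a ≠ 0 := by
    intro a h
    have : ∀ b, MK a b := fun b => (hVL a b).mp (by simp [h])
    revert this
    fin_cases a <;> decide
  let ℓ : Fin 8 → ((Fin 3 → K) →ₗ[K] K) := fun b =>
    L b 0 • LinearMap.proj 0 + L b 1 • LinearMap.proj 1 + L b 2 • LinearMap.proj 2
  have hℓ : ∀ b w, ℓ b w = L b 0 * w 0 + L b 1 * w 1 + L b 2 * w 2 := by
    intro b w
    simp [ℓ]
  have hℓ0 : ∀ b, ℓ b ≠ 0 := by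
    intro b h
    have : ∀ a, MK a b := fun a => (hVL a b).mp (by rw [← hℓ, h]; rfl)
    revert this
    fin_cases b <;> decide
  let f : Fin 8 → Pt K := fun a => ⟨Submodule.span K {V a}, finrank_span_singleton (hV0 a)⟩
  let g : Fin 8 → Ln K := fun b => ⟨LinearMap.ker (ℓ b), by
    have := Module.Dual.finrank_ker_add_one_of_ne_zero (hℓ0 b)
    rw [Module.finrank_fin_fun] at this
    omega⟩
  have hfg : ∀ a b, (f a).1 ≤ (g b).1 ↔ MK a b := by
    intro a b
    show Submodule.span K {V a} ≤ LinearMap.ker (ℓ b) ↔ _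
    rw [Submodule.span_singleton_le_iff_mem, LinearMap.mem_ker, hℓ, hVL]
  refine ⟨f, g, ?_, ?_, fun a b h => (hfg a b).mpr h⟩
  · intro a a' h
    exact MK_left a a' fun b => by rw [← hfg, ← hfg, h]
  · intro b b' h
    exact MK_right b b' fun a => by rw [← hfg, ← hfg, h]

end Obstruction

section Primes

/-- Cube roots of unity modulo a prime `p ≡ 2 (mod 3)`. -/
theorem no_root {p : ℕ} (hp : p.Prime) (h2 : p % 3 = 2) (y : ZMod p) : y ^ 2 + y + 1 ≠ 0 := by
  have := Fact.mk hp
  intro hy
  have h3 : y ^ 3 = 1 := by linear_combination (y - 1) * hy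
  have hne : y ≠ 1 := by
    rintro rfl
    have h3' : ((3 : ℕ) : ZMod p) = 0 := by
      push_cast
      linear_combination hy
    rw [ZMod.natCast_eq_zero_iff] at h3'
    have : p = 3 := (Nat.prime_dvd_prime_iff_eq hp Nat.prime_three).mp h3'
    omega
  have ho : orderOf y = 3 := orderOf_eq_prime h3 hne
  have hy0 : y ≠ 0 := by
    rintro rfl
    simp at hy
  have hd : orderOf y ∣ p - 1 := orderOf_dvd_of_pow_eq_one (ZMod.pow_card_sub_one_eq_one hy0)
  rw [ho] at hd
  have := hp.two_le
  omega

/-- Modulo a prime `p ≡ 1 (mod 3)` the polynomial `x^2 - x + 1` has a root. -/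
theorem exists_x {p : ℕ} (hp : p.Prime) (h1 : p % 3 = 1) : ∃ x : ZMod p, x ^ 2 - x + 1 = 0 := by
  have := Fact.mk hp
  have : Fact (Nat.Prime 3) := ⟨Nat.prime_three⟩
  have hc : 3 ∣ Fintype.card (ZMod p)ˣ := by
    rw [ZMod.card_units_eq_totient, Nat.totient_prime hp]
    have := hp.two_le
    omega
  obtain ⟨u, hu⟩ := exists_prime_orderOf_dvd_card 3 hc
  have hu3 : (u : ZMod p) ^ 3 = 1 := by
    have := pow_orderOf_eq_one u
    rw [hu] at this
    have h' := congrArg Units.val this
    simpa using h'
  have hu1 : (u : ZMod p) ≠ 1 := by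
    intro h
    have : u = 1 := Units.ext h
    rw [this, orderOf_one] at hu
    omega
  refine ⟨-(u : ZMod p), ?_⟩
  have hm : ((u : ZMod p) - 1) * ((u : ZMod p) ^ 2 + u + 1) = 0 := by
    linear_combination hu3
  rcases mul_eq_zero.mp hm with h | h
  · exact absurd (sub_eq_zero.mp h) hu1
  · linear_combination h

end Primes

end Pool.Agent.Run7.h749.MKC
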